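import Pool.Agent.Helper74.WB.St

/-!
# Project WB (MP_26f0da_lc), module BLK: one block
-/

set_option autoImplicit false

namespace Pool.Agent.Helper95.WB

open Pool.Agent.Helper74 Pool.Agent.Helper74.WB

variable {W : Type}

theorem red_pos {Λ : Type} (l : List (Λ × Bool)) (h : ∀ x ∈ l, x.2 = true) : Red l := by
  induction l with
  | nil => exact red_nil
  | cons x l ih =>
    apply red_cons _ _ (ih fun y hy => h y (by simp [hy]))
    intro y hy e
    cases l with
    | nil => simp at hy
    | cons z l =>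
      simp only [List.head?_cons, Option.mem_def, Option.some.injEq] at hy
      subst hy
      have h1 := h x (by simp)
      have h2 := h z (by simp)
      rw [e] at h2
      simp [iv, h1] at h2

theorem red_bcfg (i : Bool) (s : List W) : Red ((Lb.b i, true) :: cfg s) := by
  apply red_pos
  intro x hx
  rcases List.mem_cons.1 hx with h | h
  · rw [h]
  · unfold cfg at h
    obtain ⟨X, _, h⟩ := List.mem_map.1 h
    rw [← h]

/-- a bad stack stays bad in the gadgets -/
theorem bad_run (hSTP : StSTP) (rk : W → Bool) (m : List (W × List W)) (hR : ∀ g ∈ m, Rc rk g)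
    (hN : m.Nodup) (σ τ : List (Lb W × Bool)) (hr : Red σ) (hb : BI rk m σ)
    (hg : Gr (m.flatMap wg) σ τ) : BI rk [] τ := by
  induction m generalizing σ with
  | nil =>
    have : σ = τ := hg
    rwa [← this]
  | cons g m ih =>
    rw [List.flatMap_cons, gr_append] at hg
    obtain ⟨ρ, h1, h2⟩ := hg
    have hN' := List.nodup_cons.1 hN
    have h3 := (hSTP W rk g m (hR g (by simp)) hN'.1).2 σ ρ hr hb h1
    exact ih (fun g' hg' => hR g' (by simp [hg'])) hN'.2 ρ (red_gr _ _ _ hr h1) h3 h2

/-- after a rule -/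
theorem true_run (hSTP : StSTP) (rk : W → Bool) (m : List (W × List W))
    (hR : ∀ g ∈ m, Rc rk g) (hN : m.Nodup) (s : List W) (τ : List (Lb W × Bool))
    (hg : Gr (m.flatMap wg) ((Lb.b true, true) :: cfg s) τ) :
    τ = (Lb.b true, true) :: cfg s ∨ BI rk [] τ := by
  induction m with
  | nil =>
    have : _ = τ := hg
    exact Or.inl this.symm
  | cons g m ih =>
    rw [List.flatMap_cons, gr_append] at hg
    obtain ⟨ρ, h1, h2⟩ := hg
    have hN' := List.nodup_cons.1 hN
    have hR' : ∀ g' ∈ m, Rc rk g' := fun g' hg' => hR g' (by simp [hg'])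
    rcases (hSTP W rk g m (hR g (by simp)) hN'.1).1 true s ρ h1 with h | h | h
    · subst h
      exact ih hR' hN'.2 h2
    · exact absurd h.1 (by simp)
    · exact Or.inr (bad_run hSTP rk m hR' hN'.2 ρ τ (red_gr _ _ _ (red_bcfg true s) h1) h h2)

/-- before a rule -/
theorem false_run (hSTP : StSTP) (rk : W → Bool) (m : List (W × List W))
    (hR : ∀ g ∈ m, Rc rk g) (hN : m.Nodup) (s : List W) (τ : List (Lb W × Bool))
    (hg : Gr (m.flatMap wg) ((Lb.b false, true) :: cfg s) τ) :
    τ = (Lb.b false, true) :: cfg s ∨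
      (∃ g ∈ m, ∃ s', s = g.1 :: s' ∧ τ = (Lb.b true, true) :: cfg (g.2 ++ s')) ∨
        BI rk [] τ := by
  induction m with
  | nil =>
    have : _ = τ := hg
    exact Or.inl this.symm
  | cons g m ih =>
    rw [List.flatMap_cons, gr_append] at hg
    obtain ⟨ρ, h1, h2⟩ := hg
    have hN' := List.nodup_cons.1 hN
    have hR' : ∀ g' ∈ m, Rc rk g' := fun g' hg' => hR g' (by simp [hg'])
    rcases (hSTP W rk g m (hR g (by simp)) hN'.1).1 false s ρ h1 with h | h | h
    · subst h
      rcases ih hR' hN'.2 h2 with h | h | h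
      · exact Or.inl h
      · obtain ⟨g', hg', h⟩ := h
        exact Or.inr (Or.inl ⟨g', by simp [hg'], h⟩)
      · exact Or.inr (Or.inr h)
    · obtain ⟨_, s', hs, hρ⟩ := h
      subst hρ
      rcases true_run hSTP rk m hR' hN'.2 _ _ h2 with h | h
      · exact Or.inr (Or.inl ⟨g, by simp, s', hs, h⟩)
      · exact Or.inr (Or.inr h)
    · exact Or.inr (Or.inr (bad_run hSTP rk m hR' hN'.2 ρ τ
        (red_gr _ _ _ (red_bcfg false s) h1) h h2))

/-- a flag arrives at a stack of the second class -/
theorem c2_ap (i o : Bool) (σ : List (Lb W × Bool)) (h : C2 σ) : C2 (ap (Lb.b i, o) σ) := by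
  obtain ⟨ρ, g, τ, rfl, hρ⟩ := h
  have hP : Pb ((Lb.b i, o) : Lb W × Bool) := Or.inl ⟨i, rfl⟩
  cases ρ with
  | nil =>
    refine ⟨[(Lb.b i, o)], g, τ, ?_, ?_⟩
    · rw [List.nil_append, ap_push _ _ _ (by simp [iv])]
      rfl
    · intro x hx
      rw [List.mem_singleton] at hx
      rw [hx]
      exact hP
  | cons x ρ =>
    by_cases e : x = iv (Lb.b i, o)
    · subst e
      rw [List.cons_append, ap_cancel]
      exact ⟨ρ, g, τ, rfl, fun x hx => hρ x (by simp [hx])⟩
    · rw [List.cons_append, ap_push _ _ _ e]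
      refine ⟨(Lb.b i, o) :: x :: ρ, g, τ, rfl, ?_⟩
      intro y hy
      rcases List.mem_cons.1 hy with h | h
      · rw [h]
        exact hP
      · exact hρ y h

/-- the last letter arrives at a bad stack -/
theorem last_bad (rk : W → Bool) (σ : List (Lb W × Bool)) (h : BI rk [] σ) :
    BO rk (ap (Lb.b true, false) σ) := by
  rcases h with h | h | h
  · obtain ⟨i, τ, rfl, h⟩ := h
    cases i with
    | true =>
      have : ap ((Lb.b true, false) : Lb W × Bool) ((Lb.b true, true) :: τ) = τ :=
        ap_cancel (Lb.b true, false) τ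
      rw [this]
      exact Or.inl h
    | false =>
      rw [ap_push _ _ _ (by simp [iv])]
      exact Or.inl (Or.inl ⟨_, rfl⟩)
  · exact Or.inr (c2_ap true false σ h)
  · obtain ⟨g, x, τ, rfl, _, h⟩ := h
    have hx : x ≠ iv (Lb.b true, false) := by
      rcases h with h | h
      · rw [h]
        simp [iv]
      · intro e
        rw [e] at h
        simp [iv] at h
    rw [ap_push _ _ _ hx]
    exact Or.inl (Or.inl ⟨_, rfl⟩)

/-- the first letter is pushed on a stack with no flag on top -/
theorem first_cfg (s : List W) (σ : List (Lb W × Bool)) (X : W) (o : Bool) :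
    ap ((Lb.b false, true) : Lb W × Bool) (cfg s ++ (Lb.z X, o) :: σ) =
      (Lb.b false, true) :: (cfg s ++ (Lb.z X, o) :: σ) := by
  cases s with
  | nil => exact ap_push _ _ _ (by simp [iv])
  | cons Y s => exact ap_push _ _ _ (by simp [iv])

theorem hBLK (hSTP : StSTP) : StBLK := by
  intro W rk l hR hN
  constructor
  · intro s τ hg
    unfold blk at hg
    rw [gr_mand, gr_append] at hg
    obtain ⟨ρ, h1, h2⟩ := hg
    rw [gr_mand] at h2
    have h3 : ap (Lb.b true, false) ρ = τ := h2
    have h4 : ap ((Lb.b false, true) : Lb W × Bool) (cfg s) = (Lb.b false, true) :: cfg s := by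
      cases s with
      | nil => rfl
      | cons Y s => exact ap_push _ _ _ (by simp [iv])
    rw [h4] at h1
    rcases false_run hSTP rk l hR hN s ρ h1 with h | h | h
    · right
      subst h
      rw [ap_push _ _ _ (by simp [iv])] at h3
      exact Or.inl (Or.inl ⟨_, h3.symm⟩)
    · left
      obtain ⟨g, hg, s', hs, hρ⟩ := h
      refine ⟨g, hg, s', hs, ?_⟩
      rw [← h3, hρ]
      exact ap_cancel (Lb.b true, false) _
    · right
      rw [← h3]
      exact last_bad rk ρ h
  · intro σ τ hr hb hg
    unfold blk at hg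
    rw [gr_mand, gr_append] at hg
    obtain ⟨ρ, h1, h2⟩ := hg
    rw [gr_mand] at h2
    have h3 : ap (Lb.b true, false) ρ = τ := h2
    have hr' : Red (ap ((Lb.b false, true) : Lb W × Bool) σ) := red_ap _ _ hr
    have hbi : BI rk l (ap ((Lb.b false, true) : Lb W × Bool) σ) := by
      rcases hb with h | h
      · left
        rcases h with ⟨τ', h⟩ | ⟨s, X, τ', h, h'⟩
        · refine ⟨false, σ, ?_, Or.inl ⟨τ', h⟩⟩
          rw [h]
          exact ap_push _ _ _ (by simp [iv])
        · refine ⟨false, σ, ?_, Or.inr ⟨s, X, τ', h, h'⟩⟩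
          rw [h]
          exact first_cfg s τ' X false
      · exact Or.inr (Or.inl (c2_ap false true σ h))
    rw [← h3]
    exact last_bad rk ρ (bad_run hSTP rk l hR hN _ ρ hr' hbi h1)

end Pool.Agent.Helper95.WB
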